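import Mathlib
import Pool.Graph.R_pool_sql_team_39128cda.H.MP_8dd142_lc.C
import Pool.Graph.R_seed8.Helper639.ForceCH

/-!
# MP_8dd142_lc: it is consistent that some `U <_T U_top` does not have finitely generated Tukey
reductions

First part: some notion of forcing preserves `ω₁` and forces Jensen's principle `◊` (the forcing
language is the one of `Pool.Agent.Helper639.ForceCH`).
Second part: `◊` gives nonprincipal ultrafilters `U`, `V` on `ω` with `U <_T [𝔠]^{<ω}` and a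
monotone cofinal map `f` from `U` to `V` such that for every finitely generated map `F` there is a
member `Y` of `U` with `f X ≠ F X` for all the members `X ⊆ Y` of `U`. In particular `f` agrees
with `F` on no cofinal subset of `U`, and `U` does not have finitely generated Tukey reductions.
So the statement of Q1 is not a theorem of ZFC.
-/

set_option autoImplicit false

namespace Pool.Agent.Results.MP_8dd142_lc.ConsistentlyNot

open Set Cardinal Order
open Pool.Agent.Helper639.ForceCH (Om OmegaOnePreserved DiamondHolds)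

/-- `C` is a closed unbounded subset of `ω₁` (the sentence named by `IsClubName`). -/
def IsClubSet (C : Om → Prop) : Prop :=
  (∀ a : Om, ∃ b : Om, a < b ∧ C b) ∧
    ∀ a : Om, (∃ b, b < a) → (∀ b : Om, b < a → ∃ c : Om, (b < c ∧ c < a) ∧ C c) → C a

/-- Jensen's principle `◊`: the sentence which `DiamondHolds P` says is forced, evaluated in the
universe. -/
def Diamond : Prop :=
  ∃ A : Om → Om → Prop, ∀ S : Om → Prop, ∀ C : Om → Prop,
    IsClubSet C → ∃ a : Om, C a ∧ ∀ b : Om, b < a → (S b ↔ A a b)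

/-- `C` is a cofinal subset of the preorder `r`. -/
def Cofinal {α : Type} (r : α → α → Prop) (C : Set α) : Prop := ∀ a, ∃ c ∈ C, r a c

/-- `s ≤_T r`: some map sends cofinal subsets of `r` to cofinal subsets of `s`. -/
def TukeyLE {α β : Type} (s : β → β → Prop) (r : α → α → Prop) : Prop :=
  ∃ f : α → β, ∀ C : Set α, Cofinal r C → Cofinal s (f '' C)

/-- The order of `U`: `B` is above `A` if `A ⊇ B`. -/
def Incl (U : Ultrafilter ℕ) (A B : {A : Set ℕ // A ∈ U}) : Prop := A.1 ⊇ B.1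

/-- The finite subsets of a set of size continuum, ordered by inclusion. -/
def FinIncl (A B : Finset ℝ) : Prop := A ⊆ B

/-- A cofinal subset of the ultrafilter `U`. -/
def IsCofinalSubset (U : Ultrafilter ℕ) (C : Set (Set ℕ)) : Prop :=
  (∀ X ∈ C, X ∈ U) ∧ ∀ X ∈ U, ∃ Y ∈ C, Y ⊆ X

/-- `f` is a monotone cofinal map from `U` to `V`. -/
def IsMonotoneCofinal (U V : Ultrafilter ℕ) (f : Set ℕ → Set ℕ) : Prop :=
  (∀ X ∈ U, f X ∈ V) ∧ (∀ X ∈ U, ∀ Y ∈ U, Y ⊆ X → f Y ⊆ f X) ∧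
    ∀ C, IsCofinalSubset U C → IsCofinalSubset V (f '' C)

/-- The map on the subsets of `ω` generated by `g`: `X ↦ ⋃_k g (X ∩ k)`. -/
def generated (g : Finset ℕ → Finset ℕ) (X : Set ℕ) : Set ℕ :=
  {m | ∃ (k : ℕ) (s : Finset ℕ), (s : Set ℕ) = X ∩ Iio k ∧ m ∈ g s}

/-- `U` has finitely generated Tukey reductions. -/
def FinitelyGenerated (U : Ultrafilter ℕ) : Prop :=
  ∀ (V : Ultrafilter ℕ) (f : Set ℕ → Set ℕ), IsMonotoneCofinal U V f →
    ∃ C, IsCofinalSubset U C ∧ ∃ g : Finset ℕ → Finset ℕ, (∀ s t, s ⊆ t → g s ⊆ g t) ∧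
      ∀ X ∈ C, f X = generated g X

theorem dia_of_diamond (h : Diamond) : Pool.Agent.H.MP_2e4b78_lc.Dia := by
  obtain ⟨A, hA⟩ := h
  have key : ∀ o : Ordinal.{0}, o = (ℵ₁ : Cardinal.{0}).ord → ∀ (_ : NoMaxOrder o.ToType),
      (∃ A : o.ToType → o.ToType → Prop, ∀ S : o.ToType → Prop, ∀ C : o.ToType → Prop,
        ((∀ a : o.ToType, ∃ b : o.ToType, a < b ∧ C b) ∧
          ∀ a : o.ToType, (∃ b, b < a) →
            (∀ b : o.ToType, b < a → ∃ c : o.ToType, (b < c ∧ c < a) ∧ C c) → C a) →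
          ∃ a : o.ToType, C a ∧ ∀ b : o.ToType, b < a → (S b ↔ A a b)) →
      ∃ D : o.ToType → Set o.ToType, ∀ Y : Set o.ToType,
        IsStationary {δ | Y ∩ Iio δ = D δ} := by
    intro o _ _ ⟨A, hA⟩
    refine ⟨fun a => {b | b < a ∧ A a b}, fun Y C hC => ?_⟩
    have c1 : ∀ a : o.ToType, ∃ b : o.ToType, a < b ∧ b ∈ C := fun a => by
      obtain ⟨a', ha'⟩ := exists_gt a
      obtain ⟨b, hb, hb'⟩ := hC.isCofinal a'
      exact ⟨b, ha'.trans_le hb', hb⟩
    have c2 : ∀ a : o.ToType, (∃ b, b < a) →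
        (∀ b : o.ToType, b < a → ∃ c : o.ToType, (b < c ∧ c < a) ∧ c ∈ C) → a ∈ C := by
      intro a h3 h4
      obtain ⟨b0, hb0⟩ := h3
      obtain ⟨c0, hc0, hc0'⟩ := h4 b0 hb0
      refine hC.isLUB_mem (t := {c | c ∈ C ∧ c < a}) (fun c hc => hc.1) ⟨c0, hc0', hc0.2⟩
        ⟨fun c hc => hc.2.le, fun b hb => ?_⟩
      by_contra h5
      obtain ⟨c, hc, hc'⟩ := h4 b (not_le.1 h5)
      exact absurd (hb ⟨hc', hc.2⟩) (not_le.2 hc.1)
    obtain ⟨a, h1, h2⟩ := hA (fun b => b ∈ Y) (fun b => b ∈ C) ⟨c1, c2⟩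
    refine ⟨a, ?_, h1⟩
    ext b
    simp only [mem_inter_iff, mem_Iio, Set.mem_ofPred_eq]
    exact ⟨fun h => ⟨h.2, (h2 b h.2).1 h.1⟩, fun h => ⟨(h2 b h.1).2 h.2, h.1⟩⟩
  have h1 : (Ordinal.omega 1 : Ordinal.{0}) = (ℵ₁ : Cardinal.{0}).ord := by simp
  have h2 : NoMaxOrder (Ordinal.omega 1 : Ordinal.{0}).ToType := by
    rw [h1]
    infer_instance
  refine key _ h1 h2 ?_
  rw [h1]
  exact ⟨A, hA⟩


/-- There is a map sending unbounded sets to unbounded sets if and only if there is a map in the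
other direction sending cofinal sets to cofinal sets. -/
theorem tukey_iff {α β : Type} {s : β → β → Prop} {r : α → α → Prop} :
    TukeyLE s r ↔ Pool.Agent.H.MP_0d317a_lc.Tk s r := by
  constructor
  · rintro ⟨f, hf⟩
    have h1 : ∀ b : β, ∃ a : α, ∀ x, r a x → s b (f x) := by
      intro b
      by_contra h
      push Not at h
      choose g hg using h
      obtain ⟨_, ⟨x, ⟨a, rfl⟩, rfl⟩, hx⟩ := hf (range g) (fun a => ⟨g a, ⟨a, rfl⟩, (hg a).1⟩) b
      exact (hg a).2 hx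
    choose g hg using h1
    refine ⟨g, fun S hS => ?_⟩
    rintro ⟨b, hb⟩
    exact hS ⟨f b, fun x hx => hg x b (hb _ ⟨x, hx, rfl⟩)⟩
  · rintro ⟨g, hg⟩
    classical
    have h1 : ∀ a : α, ∃ b : β, ∀ x, r (g x) a → s x b := by
      intro a
      by_contra h
      push Not at h
      refine hg {x | r (g x) a} ?_ ⟨a, ?_⟩
      · rintro ⟨b, hb⟩
        obtain ⟨x, hx, hx'⟩ := h b
        exact hx' (hb x hx)
      · rintro _ ⟨x, hx, rfl⟩
        exact hx
    choose f hf using h1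
    refine ⟨f, fun C hC b => ?_⟩
    obtain ⟨c, hc, hc'⟩ := hC (g b)
    exact ⟨f c, ⟨c, hc, rfl⟩, hf c b hc'⟩

/-- `f` is a monotone cofinal map from `U` to `V` which is nowhere finitely generated: every finitely
generated map differs from `f` at all the members of `U` below some member of `U`. -/
def NowhereGenerated (U V : Ultrafilter ℕ) (f : Set ℕ → Set ℕ) : Prop :=
  IsMonotoneCofinal U V f ∧ ∀ g : Finset ℕ → Finset ℕ, (∀ s t, s ⊆ t → g s ⊆ g t) →
    ∃ Y ∈ U, ∀ X ∈ U, X ⊆ Y → f X ≠ generated g X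

open Pool.Agent.H.MP_0d317a_lc (Tk Fc Sup nt dg) in
open Pool.Agent.H.MP_77d395_lc Pool.Agent.H.MP_6e75db_lc in
theorem strong (hd : Pool.Agent.H.MP_2e4b78_lc.Dia) :
    ∃ (U V : Ultrafilter ℕ) (f : Set ℕ → Set ℕ), (∀ n, {n} ∉ U) ∧ (∀ n, {n} ∉ V) ∧
      Tk (Sup U) Fc ∧ ¬ Tk Fc (Sup U) ∧ NowhereGenerated U V f := by
  classical
  obtain ⟨e⟩ : Nonempty (ℝ ≃ I) := by
    obtain ⟨D, hD⟩ := dg hd
    choose a ha using fun S => (hD (fun _ => S) (fun _ => ∅) fun _ => countable_empty).imp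
      fun a r => r.2.2 o r.1
    exact Cardinal.eq.1 (le_antisymm (by
      simpa [mk_real] using mk_le_of_injective (Function.LeftInverse.injective
        (g := fun a => D a o) ha)) (by simp [mk_real, aleph0_lt_continuum]))
  obtain ⟨i⟩ := (le_def (Set ℕ) ℝ).1 (by simp [mk_real])
  obtain ⟨U, V, f, h1, h2, h2', h3, h4, h5, h6⟩ := Pool.Agent.H.MP_8dd142_lc.ex hd
  refine ⟨U, V, f, h2, h2', ⟨fun A => {i A.1}, fun S r ⟨b, w⟩ => ?_⟩,
    nt e fun B => (h1 _ fun i => (B i).2).imp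
      fun J r => ⟨r.1, ⟨⋂ i ∈ J, (B i).1, r.2⟩, fun i t => biInter_subset_of_mem
        (t := fun i => (B i).1) t⟩, ⟨h3, fun _ _ _ _ l => h4 l, fun C c => ?_⟩, fun g hg => ?_⟩
  · have k : S.Finite := .of_finite_image (b.finite_toSet.subset (image_subset_iff.2 fun A v =>
      Finset.singleton_subset_iff.1 (w _ ⟨A, v, rfl⟩))) (i.injective.comp Subtype.val_injective).injOn
    exact r ⟨⟨⋂ A ∈ S, A.1, (Filter.biInter_mem k).2 fun A _ => A.2⟩, fun A t =>
      biInter_subset_of_mem (t := fun A : {A // A ∈ U} => A.1) t⟩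
  · exact ⟨forall_mem_image.2 fun X v => h3 X (c.1 X v), fun Z v =>
      let ⟨X, x, l⟩ := h5 Z v
      let ⟨Y, y, w⟩ := c.2 X x
      ⟨_, ⟨Y, y, rfl⟩, (h4 w).trans l⟩⟩
  · obtain ⟨Y, y, w⟩ := h6 (Encodable.encode '' {z : Finset ℕ × ℕ | z.2 ∈ g z.1})
    refine ⟨Y, y, fun X x l e => w X x l (e.trans (ext fun m => ⟨fun ⟨k, s, u, v⟩ =>
      ⟨s, u.le.trans inter_subset_left, _, v, rfl⟩, fun ⟨s, u, v⟩ => ?_⟩))⟩
    obtain ⟨k, t⟩ := s.finite_toSet.bddAbove
    have j := (finite_Iio (k + 1)).inter_of_right X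
    exact ⟨k + 1, j.toFinset, j.coe_toFinset, hg s _ (fun n z => j.mem_toFinset.2
      ⟨u z, Nat.lt_succ_of_le (t z)⟩) (by
        obtain ⟨_, v, e⟩ := v
        obtain rfl := Encodable.encode_injective e
        exact v)⟩

/-- **It is consistent that some `U <_T U_top` does not have finitely generated Tukey
reductions.** -/
theorem result :
    (∃ (P : Type) (_ : Preorder P), Nonempty P ∧
      ∀ p : P, p ∈ OmegaOnePreserved P ∧ p ∈ DiamondHolds P) ∧
    (Diamond → ∃ (U V : Ultrafilter ℕ) (f : Set ℕ → Set ℕ), (∀ n, {n} ∉ U) ∧ (∀ n, {n} ∉ V) ∧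
      TukeyLE (Incl U) FinIncl ∧ ¬ TukeyLE FinIncl (Incl U) ∧ NowhereGenerated U V f ∧
      ¬ FinitelyGenerated U) := by
  refine ⟨?_, fun hd => ?_⟩
  · obtain ⟨P, i, hn, h⟩ := Pool.Agent.Helper639.ForceCH.exists_forcing
    exact ⟨P, i, hn, fun p => ⟨(h p).1, (h p).2.1⟩⟩
  · obtain ⟨U, V, f, h1, h1', h2, h3, h4⟩ := strong (dia_of_diamond hd)
    refine ⟨U, V, f, h1, h1', tukey_iff.2 h2, fun h => h3 (tukey_iff.1 h), h4, fun h => ?_⟩
    obtain ⟨C, hC, g, hg, hg'⟩ := h V f h4.1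
    obtain ⟨Y, hY, hY'⟩ := h4.2 g hg
    obtain ⟨X, hX, hXY⟩ := hC.2 Y hY
    exact hY' X (hC.1 X hX) hXY (hg' X hX)

end Pool.Agent.Results.MP_8dd142_lc.ConsistentlyNot
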